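import Pool.Agent.Lib.MP_c28bf6_an.N7.All

/-!
MP_c28bf6_an, Q1 for `n = 7` in space: a choreography of seven bodies that are not coplanar at some
time has equal masses.
-/

namespace Pool.Agent.Results.MP_c28bf6_an.NonplanarSeven

open Pool.Agent.Lib.MP_c28bf6_an

/-- Let seven bodies with positive masses move in a collision-free choreography in a real inner
product space (of any dimension, in particular in `ℝ³`). If at some time `t` their positions span an
affine space of dimension at least `3`, then all masses are equal. -/
theorem result {E : Type*} [NormedAddCommGroup E] [InnerProductSpace ℝ E]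
    {m : Fin 7 → ℝ} {x : ℝ → E} {T : ℝ} (h : IsChoreography 7 m x T) (t : ℝ)
    (ht : 3 ≤ Module.finrank ℝ (vectorSpan ℝ (Set.range (fun i => body 7 x T i t))))
    (i j : Fin 7) : m i = m j :=
  N7.all E m x T h t ht i j

end Pool.Agent.Results.MP_c28bf6_an.NonplanarSeven
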